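import Mathlib

/-!
# Affine functions separating extreme points

For an extreme point `t` of a compact convex set `X` and a neighbourhood `U` of `t` there are
continuous affine functions which are nonnegative on `X`, at least `1` on `X \ U`, and arbitrarily
small at `t`.
-/

set_option autoImplicit false

namespace Pool.Agent.H87.EX

open Set Filter Topology

variable {E : Type*} [AddCommGroup E] [Module ℝ E]

/-- An extreme point on a segment of the set is one of its end points. -/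
lemma eq_or_eq_of_mem_segment {X : Set E} {t a b : E} (ht : t ∈ X.extremePoints ℝ)
    (ha : a ∈ X) (hb : b ∈ X) (h : t ∈ segment ℝ a b) : t = a ∨ t = b := by
  by_contra hcon
  push Not at hcon
  have h1 : t ∈ openSegment ℝ a b := mem_openSegment_of_ne_left_right hcon.1.symm hcon.2.symm h
  exact hcon.1 (ht.2 ha hb h1).symm

variable [TopologicalSpace E] [IsTopologicalAddGroup E] [ContinuousSMul ℝ E]

lemma isCompact_convexJoin {s t : Set E} (hs : IsCompact s) (ht : IsCompact t) :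
    IsCompact (convexJoin ℝ s t) := by
  have h : convexJoin ℝ s t =
      (fun p : (E × E) × ℝ => (1 - p.2) • p.1.1 + p.2 • p.1.2) '' ((s ×ˢ t) ×ˢ Icc (0:ℝ) 1) := by
    ext x
    rw [mem_convexJoin]
    constructor
    · rintro ⟨a, ha, b, hb, hx⟩
      rw [segment_eq_image] at hx
      obtain ⟨r, hr, rfl⟩ := hx
      exact ⟨((a, b), r), ⟨⟨ha, hb⟩, hr⟩, rfl⟩
    · rintro ⟨⟨⟨a, b⟩, r⟩, ⟨⟨ha, hb⟩, hr⟩, rfl⟩
      refine ⟨a, ha, b, hb, ?_⟩
      rw [segment_eq_image]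
      exact ⟨r, hr, rfl⟩
  rw [h]
  refine ((hs.prod ht).prod isCompact_Icc).image ?_
  fun_prop

variable [LocallyConvexSpace ℝ E] [T2Space E]

lemma exists_compact_hull {X : Set E} (hXc : IsCompact X) (hX : Convex ℝ X) {t : E}
    (ht : t ∈ X.extremePoints ℝ) {s : Set E} (hs : IsCompact s) (hsX : s ⊆ X) (hts : t ∉ s) :
    ∃ K : Set E, IsCompact K ∧ Convex ℝ K ∧ s ⊆ K ∧ K ⊆ X ∧ t ∉ K := by
  refine hs.induction_on (p := fun A => ∃ K : Set E, IsCompact K ∧ Convex ℝ K ∧ A ⊆ K ∧ K ⊆ X ∧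
    t ∉ K) ?_ ?_ ?_ ?_
  · exact ⟨∅, isCompact_empty, convex_empty, Subset.rfl, empty_subset _, notMem_empty _⟩
  · rintro A B hAB ⟨K, h1, h2, h3, h4, h5⟩
    exact ⟨K, h1, h2, hAB.trans h3, h4, h5⟩
  · rintro A B ⟨K, h1, h2, h3, h4, h5⟩ ⟨L, g1, g2, g3, g4, g5⟩
    rcases K.eq_empty_or_nonempty with rfl | hK
    · exact ⟨L, g1, g2, union_subset (h3.trans (empty_subset _)) g3, g4, g5⟩
    rcases L.eq_empty_or_nonempty with rfl | hL
    · exact ⟨K, h1, h2, union_subset h3 (g3.trans (empty_subset _)), h4, h5⟩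
    refine ⟨convexJoin ℝ K L, isCompact_convexJoin h1 g1, h2.convexJoin g2,
      union_subset (h3.trans (subset_convexJoin_left hL)) (g3.trans (subset_convexJoin_right hK)),
      convexJoin_subset h4 g4 hX, ?_⟩
    intro h
    rw [mem_convexJoin] at h
    obtain ⟨a, ha, b, hb, hab⟩ := h
    rcases eq_or_eq_of_mem_segment ht (h4 ha) (g4 hb) hab with rfl | rfl
    · exact h5 ha
    · exact g5 hb
  · intro y hy
    have hyt : y ≠ t := fun h => hts (h ▸ hy)
    obtain ⟨φ, hφ⟩ := geometric_hahn_banach_point_point hyt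
    obtain ⟨c, hc1, hc2⟩ := exists_between hφ
    refine ⟨X ∩ {z | φ z ≤ c}, ?_, X ∩ {z | φ z ≤ c}, ?_, ?_, Subset.rfl, inter_subset_left, ?_⟩
    · have h1 : {z | φ z < c} ∈ 𝓝 y := (isOpen_lt φ.continuous continuous_const).mem_nhds hc1
      refine mem_nhdsWithin.2 ⟨{z | φ z < c}, isOpen_lt φ.continuous continuous_const, hc1, ?_⟩
      rintro z ⟨hz, hzs⟩
      exact ⟨hsX hzs, show φ z ≤ c from le_of_lt hz⟩
    · exact hXc.inter_right (isClosed_le φ.continuous continuous_const)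
    · exact hX.inter (convex_halfSpace_le φ.toLinearMap.isLinear c)
    · rintro ⟨-, h⟩
      exact absurd hc2 (not_lt.2 h)

theorem exists_affine {X : Set E} (hXc : IsCompact X) (hX : Convex ℝ X) {t : E}
    (ht : t ∈ X.extremePoints ℝ) {U : Set E} (hU : IsOpen U) (htU : t ∈ U) {ε : ℝ} (hε : 0 < ε) :
    ∃ (φ : E →L[ℝ] ℝ) (c : ℝ), (∀ x ∈ X, 0 ≤ φ x + c) ∧ (∀ x ∈ X, φ x + c < 1 → x ∈ U) ∧
      φ t + c < ε := by
  obtain ⟨K, hKc, hK, hUK, hKX, htK⟩ := exists_compact_hull hXc hX ht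
    (hXc.inter_right hU.isClosed_compl) inter_subset_left (fun h => h.2 htU)
  rcases K.eq_empty_or_nonempty with rfl | hKne
  · refine ⟨0, 0, by simp, ?_, by simpa using hε⟩
    intro x hx _
    by_contra hxU
    exact hUK ⟨hx, hxU⟩
  let C : Set (E × ℝ) := convexJoin ℝ (K ×ˢ {1}) (X ×ˢ {0})
  have hCc : IsCompact C := isCompact_convexJoin (hKc.prod isCompact_singleton)
    (hXc.prod isCompact_singleton)
  have hC : Convex ℝ C := (hK.prod (convex_singleton 1)).convexJoin (hX.prod (convex_singleton 0))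
  have htX : t ∈ X := ht.1
  have h1 : (t, ε) ∉ C := by
    intro h
    simp only [C, mem_convexJoin] at h
    obtain ⟨⟨y, r⟩, ⟨hy, hr⟩, ⟨z, r'⟩, ⟨hz, hr'⟩, hmem⟩ := h
    simp only [mem_singleton_iff] at hr hr'
    subst hr hr'
    obtain ⟨a, b, ha, hb, hab, heq⟩ := hmem
    simp only [Prod.smul_mk, Prod.mk_add_mk, smul_eq_mul, mul_one, mul_zero, add_zero,
      Prod.mk.injEq] at heq
    obtain ⟨he1, he2⟩ := heq
    rcases eq_or_lt_of_le hb with hb0 | hb0
    · have ha1 : a = 1 := by linarith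
      rw [← hb0, ha1, one_smul, zero_smul, add_zero] at he1
      exact htK (he1 ▸ hy)
    · have h2 : y = t := ht.2 (hKX hy) hz ⟨a, b, by rw [he2]; exact hε, hb0, hab, he1⟩
      exact htK (h2 ▸ hy)
  obtain ⟨F, u, hF1, hF2⟩ := geometric_hahn_banach_closed_point hC hCc.isClosed h1
  have hlin : ∀ (x : E) (r : ℝ), F (x, r) = F (x, 0) + r * F (0, 1) := by
    intro x r
    have : (x, r) = (x, (0:ℝ)) + r • ((0:E), (1:ℝ)) := by simp
    rw [this, map_add, map_smul, smul_eq_mul]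
  have hX0 : ∀ x ∈ X, F (x, 0) < u := by
    intro x hx
    apply hF1
    obtain ⟨y, hy⟩ := hKne
    exact subset_convexJoin_right (⟨(y, 1), hy, rfl⟩ : (K ×ˢ ({1} : Set ℝ)).Nonempty)
      (show (x, (0:ℝ)) ∈ X ×ˢ ({0} : Set ℝ) from ⟨hx, rfl⟩)
  have hK1 : ∀ y ∈ K, F (y, 0) + F (0, 1) < u := by
    intro y hy
    have := hF1 (y, 1) (subset_convexJoin_left
      (⟨(t, 0), htX, rfl⟩ : (X ×ˢ ({0} : Set ℝ)).Nonempty)
      (show (y, (1:ℝ)) ∈ K ×ˢ ({1} : Set ℝ) from ⟨hy, rfl⟩))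
    rwa [hlin, one_mul] at this
  rw [hlin] at hF2
  have hβ : 0 < F (0, 1) := by
    have h2 := hX0 t htX
    have h3 : 0 < ε * F (0, 1) := by linarith
    exact pos_of_mul_pos_right h3 hε.le
  set β := F (0, 1) with hβdef
  let φ₀ : E →L[ℝ] ℝ := F.comp (ContinuousLinearMap.inl ℝ E ℝ)
  have hφ₀ : ∀ x, φ₀ x = F (x, 0) := fun x => rfl
  refine ⟨-(β⁻¹ • φ₀), β⁻¹ * u, ?_, ?_, ?_⟩
  · intro x hx
    have h2 := hX0 x hx
    have h3 : (-(β⁻¹ • φ₀)) x + β⁻¹ * u = β⁻¹ * (u - F (x, 0)) := by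
      simp only [neg_apply, smul_apply, smul_eq_mul, hφ₀]
      ring
    rw [h3]
    have := inv_pos.2 hβ
    exact mul_nonneg this.le (by linarith)
  · intro x hx hlt
    by_contra hxU
    have h2 := hK1 x (hUK ⟨hx, hxU⟩)
    have h3 : (-(β⁻¹ • φ₀)) x + β⁻¹ * u = β⁻¹ * (u - F (x, 0)) := by
      simp only [neg_apply, smul_apply, smul_eq_mul, hφ₀]
      ring
    rw [h3, inv_mul_lt_iff₀ hβ] at hlt
    linarith
  · have h3 : (-(β⁻¹ • φ₀)) t + β⁻¹ * u = β⁻¹ * (u - F (t, 0)) := by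
      simp only [neg_apply, smul_apply, smul_eq_mul, hφ₀]
      ring
    rw [h3, inv_mul_lt_iff₀ hβ]
    linarith

end Pool.Agent.H87.EX
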