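import Pool.Agent.H87.EX.Perf
import Pool.Agent.H87.EX.Choquet

/-!
# Images of Lindelöf sets of extreme points
-/

set_option autoImplicit false

namespace Pool.Agent.H87.EX

open Set Filter Topology MeasureTheory Function
open scoped ENNReal

noncomputable section

/-- The Baire `σ`-algebra, generated by the zero sets of continuous real functions. -/
@[reducible] def baire (T : Type*) [TopologicalSpace T] : MeasurableSpace T :=
  MeasurableSpace.generateFrom {Z | ∃ g : T → ℝ, Continuous g ∧ Z = g ⁻¹' {0}}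

section Functionals

variable {E : Type*} [AddCommGroup E] [Module ℝ E] [TopologicalSpace E]

/-- Sets of extreme points described by countably many continuous functionals. -/
def Cod (X : Set E) (B : Set (X.extremePoints ℝ)) : Prop :=
  ∃ (l : ℕ → (E →L[ℝ] ℝ)) (B₀ : Set (ℕ → ℝ)), MeasurableSet B₀ ∧
    B = {t : X.extremePoints ℝ | (fun n => l n t) ∈ B₀}

lemma Cod.common {X : Set E} {S : ℕ → Set (X.extremePoints ℝ)} (h : ∀ n, Cod X (S n)) :
    ∃ (l : ℕ → (E →L[ℝ] ℝ)) (B : ℕ → Set (ℕ → ℝ)), (∀ n, MeasurableSet (B n)) ∧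
      ∀ n, S n = {t : X.extremePoints ℝ | (fun k => l k t) ∈ B n} := by
  choose l B hB hS using h
  refine ⟨fun k => l k.unpair.1 k.unpair.2,
    fun n => {v | (fun k => v (Nat.pair n k)) ∈ B n}, ?_, ?_⟩
  · intro n
    exact (measurable_pi_lambda _ fun k => measurable_pi_apply _) (hB n)
  · intro n
    ext t
    rw [hS n]
    simp

/-- These sets form a `σ`-algebra. -/
@[reducible] def codSpace (X : Set E) : MeasurableSpace (X.extremePoints ℝ) where
  MeasurableSet' := Cod X
  measurableSet_empty := ⟨fun _ => 0, ∅, .empty, by simp⟩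
  measurableSet_compl := by
    rintro s ⟨l, B, hB, rfl⟩
    exact ⟨l, Bᶜ, hB.compl, rfl⟩
  measurableSet_iUnion := by
    intro f hf
    obtain ⟨l, B, hB, hS⟩ := Cod.common hf
    refine ⟨l, ⋃ n, B n, .iUnion hB, ?_⟩
    ext t
    simp [hS]

variable [IsTopologicalAddGroup E] [ContinuousSMul ℝ E]

lemma exists_extreme [LocallyConvexSpace ℝ E] [T2Space E] {X : Set E} (hXc : IsCompact X)
    (l φ : ℕ → (E →L[ℝ] ℝ)) (c : ℕ → ℝ) (h0 : ∀ n, ∀ x ∈ X, 0 ≤ φ n x + c n)
    (h1 : ∀ n, ∀ x ∈ X, ∀ y ∈ X, φ n x + c n < 1 → φ n y + c n < 1 →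
      ∀ i < n, |l i x - l i y| < 2 / (n + 1))
    {x : E} (hx : x ∈ X) (hlt : ∀ n, φ n x + c n < (1 / 4) ^ n) :
    ∃ t ∈ X.extremePoints ℝ, ∀ i, l i t = l i x := by
  let u : E → ℝ≥0∞ := fun y => ∑' n, ENNReal.ofReal (2 ^ n * (φ n y + c n))
  have hu : LowerSemicontinuous u := by
    refine lowerSemicontinuous_tsum fun n => Continuous.lowerSemicontinuous ?_
    exact ENNReal.continuous_ofReal.comp (by fun_prop)
  have hux : u x < ∞ := by
    have hs : Summable fun n : ℕ => ((1 / 2 : ℝ)) ^ n := summable_geometric_two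
    refine lt_of_le_of_lt (ENNReal.tsum_le_tsum fun n => ?_) hs.tsum_ofReal_lt_top
    apply ENNReal.ofReal_le_ofReal
    have h2 : (2:ℝ) ^ n * (1 / 4) ^ n = (1 / 2) ^ n := by
      rw [← mul_pow]; norm_num
    rw [← h2]
    exact mul_le_mul_of_nonneg_left (hlt n).le (by positivity)
  have hconv : ∀ p ∈ X, ∀ q ∈ X, ∀ a b : ℝ, 0 < a → 0 < b → a + b = 1 →
      u (a • p + b • q) = ENNReal.ofReal a * u p + ENNReal.ofReal b * u q := by
    intro p hp q hq a b ha hb hab
    simp only [u]
    rw [← ENNReal.tsum_mul_left, ← ENNReal.tsum_mul_left, ← ENNReal.tsum_add]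
    congr 1
    ext1 n
    have h2 := h0 n p hp
    have h3 := h0 n q hq
    rw [← ENNReal.ofReal_mul ha.le, ← ENNReal.ofReal_mul hb.le, ← ENNReal.ofReal_add
      (by positivity) (by positivity)]
    congr 1
    rw [map_add, map_smul, map_smul, smul_eq_mul, smul_eq_mul]
    have hb' : b = 1 - a := by linarith
    rw [hb']
    ring
  obtain ⟨y₀, hy₀, hmin⟩ := LowerSemicontinuousOn.exists_isMinOn ⟨x, hx⟩ hXc
    (hu.lowerSemicontinuousOn X)
  have hmin' : ∀ y ∈ X, u y₀ ≤ u y := fun y hy => hmin hy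
  set m := u y₀ with hm
  have hmt : m < ∞ := (hmin' x hx).trans_lt hux
  let Y : Set E := X ∩ u ⁻¹' Iic m
  have hYc : IsCompact Y := hXc.inter_right (hu.isClosed_preimage m)
  have hYne : Y.Nonempty := ⟨y₀, hy₀, mem_preimage.2 (mem_Iic.2 le_rfl)⟩
  have hext : IsExtreme ℝ X Y := by
    refine ⟨inter_subset_left, ?_⟩
    rintro p hp q hq z ⟨-, hz⟩ ⟨a, b, ha, hb, hab, rfl⟩
    refine ⟨hp, ?_⟩
    rw [mem_preimage, mem_Iic, hconv p hp q hq a b ha hb hab] at hz
    have h2 : ENNReal.ofReal a * u p + ENNReal.ofReal b * m ≤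
        ENNReal.ofReal a * m + ENNReal.ofReal b * m := by
      rw [← add_mul, ← ENNReal.ofReal_add ha.le hb.le, hab, ENNReal.ofReal_one, one_mul]
      refine le_trans ?_ hz
      gcongr
      exact hmin' q hq
    have h3 : ENNReal.ofReal a * u p ≤ ENNReal.ofReal a * m :=
      (ENNReal.add_le_add_iff_right (ENNReal.mul_ne_top ENNReal.ofReal_ne_top hmt.ne)).1 h2
    have ha0 : ENNReal.ofReal a ≠ 0 := by simpa using ha
    exact (ENNReal.mul_le_mul_iff_right ha0 ENNReal.ofReal_ne_top).1 h3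
  obtain ⟨t, ht⟩ := hYc.extremePoints_nonempty hYne
  have htY : t ∈ Y := ht.1
  have hut : u t < ∞ := lt_of_le_of_lt htY.2 hmt
  refine ⟨t, hext.extremePoints_subset_extremePoints ht, ?_⟩
  have hlarge : ∃ N : ℕ, ∀ n ≥ N, φ n t + c n < 1 := by
    obtain ⟨N, hN⟩ := pow_unbounded_of_one_lt (u t).toReal (one_lt_two (α := ℝ))
    refine ⟨N, fun n hn => ?_⟩
    by_contra hcon
    push Not at hcon
    have h2 : ENNReal.ofReal (2 ^ n * (φ n t + c n)) ≤ u t :=
      ENNReal.le_tsum (f := fun n => ENNReal.ofReal (2 ^ n * (φ n t + c n))) n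
    rw [ENNReal.ofReal_le_iff_le_toReal hut.ne] at h2
    have h3 : (2:ℝ) ^ N ≤ 2 ^ n := pow_le_pow_right₀ one_le_two hn
    have h4 : (2:ℝ) ^ n * 1 ≤ 2 ^ n * (φ n t + c n) :=
      mul_le_mul_of_nonneg_left hcon (by positivity)
    linarith
  obtain ⟨N, hN⟩ := hlarge
  intro i
  by_contra hne
  have hpos : 0 < |l i t - l i x| := abs_pos.2 (sub_ne_zero.2 hne)
  obtain ⟨k, hk⟩ := exists_nat_gt (2 / |l i t - l i x|)
  let n := max (max N (i + 1)) k
  have hn1 : N ≤ n := (le_max_left _ _).trans (le_max_left _ _)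
  have hn2 : i + 1 ≤ n := (le_max_right _ _).trans (le_max_left _ _)
  have hn3 : k ≤ n := le_max_right _ _
  have h2 := h1 n t htY.1 x hx (hN n hn1)
    ((hlt n).trans_le (pow_le_one₀ (by norm_num) (by norm_num))) i hn2
  have h3 : (2:ℝ) / |l i t - l i x| < n + 1 := by
    have : (k:ℝ) ≤ n := by exact_mod_cast hn3
    linarith
  rw [div_lt_iff₀ hpos] at h3
  rw [lt_div_iff₀ (by positivity)] at h2
  linarith

/-- The image of a Lindelöf set of extreme points under countably many functionals, cut by a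
Borel set and mapped by a Borel map, is analytic. -/
theorem key [LocallyConvexSpace ℝ E] [T2Space E] {X : Set E} (hXc : IsCompact X)
    (hX : Convex ℝ X) [LindelofSpace (X.extremePoints ℝ)] [Nonempty (X.extremePoints ℝ)]
    (l : ℕ → (E →L[ℝ] ℝ)) {M : Set (ℕ → ℝ)} (hM : MeasurableSet M)
    {cc : (ℕ → ℝ) → (ℕ → Bool)} (hcc : Measurable cc) :
    AnalyticSet (cc '' {v | v ∈ M ∧ ∃ t : X.extremePoints ℝ, v = fun n => l n t}) := by
  let U : ℕ → X.extremePoints ℝ → Set E := fun n t =>
    {x | ∀ i < n, |l i x - l i t| < 1 / (n + 1)}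
  have hU : ∀ n t, IsOpen (U n t) := by
    intro n t
    have : U n t = ⋂ i ∈ Finset.range n, {x | |l i x - l i t| < 1 / (n + 1)} := by
      ext x
      simp [U]
    rw [this]
    refine isOpen_biInter_finset fun i _ => ?_
    exact isOpen_lt (by fun_prop) continuous_const
  have htU : ∀ n t, (t : E) ∈ U n t := by
    intro n t i _
    rw [sub_self, abs_zero]
    positivity
  have hex : ∀ (n : ℕ) (t : X.extremePoints ℝ), ∃ (φ : E →L[ℝ] ℝ) (c : ℝ),
      (∀ x ∈ X, 0 ≤ φ x + c) ∧ (∀ x ∈ X, φ x + c < 1 → x ∈ U n t) ∧ φ t + c < (1 / 4) ^ n :=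
    fun n t => exists_affine hXc hX t.2 (hU n t) (htU n t) (by positivity)
  choose φ c h0 h1 h2 using hex
  have hτ : ∀ n, ∃ τ : ℕ → X.extremePoints ℝ, ∀ s : X.extremePoints ℝ, ∃ k,
      φ n (τ k) s + c n (τ k) < (1 / 4) ^ n := by
    intro n
    obtain ⟨C, hC, -, hC2⟩ := (isLindelof_univ (X := X.extremePoints ℝ)).elim_nhds_subcover
      (fun t => {s | φ n t s + c n t < (1 / 4) ^ n}) (fun t _ => by
        refine IsOpen.mem_nhds ?_ (h2 n t)
        exact isOpen_lt (by fun_prop) continuous_const)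
    have hCne : C.Nonempty := by
      obtain ⟨s⟩ := ‹Nonempty (X.extremePoints ℝ)›
      obtain ⟨t, ht, -⟩ := mem_iUnion₂.1 (hC2 (mem_univ s))
      exact ⟨t, ht⟩
    obtain ⟨τ, rfl⟩ := hC.exists_eq_range hCne
    refine ⟨τ, fun s => ?_⟩
    obtain ⟨_, ⟨k, rfl⟩, hk⟩ := mem_iUnion₂.1 (hC2 (mem_univ s))
    exact ⟨k, hk⟩
  choose τ hτ using hτ
  let G : E → (ℕ → ℝ) × (ℕ → ℕ → ℝ) := fun x =>
    (fun n => l n x, fun n k => φ n (τ n k) x + c n (τ n k))
  have hG : Continuous G := by
    refine Continuous.prodMk ?_ ?_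
    · exact continuous_pi fun n => (l n).continuous
    · exact continuous_pi fun n => continuous_pi fun k => by fun_prop
  have hGX : MeasurableSet (G '' X) := (hXc.image hG).isClosed.measurableSet
  let B : Set ((ℕ → ℝ) × (ℕ → ℕ → ℝ)) := {p | p.1 ∈ M ∧ ∀ n, ∃ k, p.2 n k < (1 / 4) ^ n}
  have hB : MeasurableSet B := by
    have hB' : B = (Prod.fst ⁻¹' M) ∩ ⋂ n, ⋃ k, {p : (ℕ → ℝ) × (ℕ → ℕ → ℝ) | p.2 n k < (1 / 4) ^ n} := by
      ext p
      simp [B]
    rw [hB']
    refine (measurable_fst hM).inter (.iInter fun n => .iUnion fun k => ?_)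
    refine measurableSet_lt ?_ measurable_const
    exact (measurable_pi_apply k).comp ((measurable_pi_apply n).comp measurable_snd)
  have himg : cc '' {v | v ∈ M ∧ ∃ t : X.extremePoints ℝ, v = fun n => l n t} =
      (cc ∘ Prod.fst) '' (G '' X ∩ B) := by
    rw [image_comp]
    congr 1
    ext v
    constructor
    · rintro ⟨hv, t, rfl⟩
      exact ⟨G t, ⟨⟨t, t.2.1, rfl⟩, hv, fun n => hτ n t⟩, rfl⟩
    · rintro ⟨_, ⟨⟨x, hx, rfl⟩, hxM, hxn⟩, rfl⟩
      refine ⟨hxM, ?_⟩
      choose k hk using hxn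
      obtain ⟨t, ht, hti⟩ := exists_extreme hXc l (fun n => φ n (τ n (k n)))
        (fun n => c n (τ n (k n))) (fun n x hx => h0 n _ x hx) (by
          intro n x hx y hy hx1 hy1 i hi
          have h3 := h1 n _ x hx hx1 i hi
          have h4 := h1 n _ y hy hy1 i hi
          have h5 : (2:ℝ) / (n + 1) = 1 / (n + 1) + 1 / (n + 1) := by ring
          rw [h5]
          refine lt_of_le_of_lt (abs_sub_le _ (l i (τ n (k n))) _) ?_
          rw [abs_sub_comm (l i (τ n (k n))) (l i y)]
          exact add_lt_add h3 h4) hx hk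
      refine ⟨⟨t, ht⟩, ?_⟩
      funext i
      exact (hti i).symm
  rw [himg]
  exact (hGX.inter hB).analyticSet_image (hcc.comp measurable_fst)

/-- Baire sets of extreme points are described by countably many functionals. -/
theorem cod_of_baire [LocallyConvexSpace ℝ E] [T2Space E] {X : Set E} (hXc : IsCompact X)
    (hX : Convex ℝ X) [LindelofSpace (X.extremePoints ℝ)] {B : Set (X.extremePoints ℝ)}
    (hB : MeasurableSet[baire _] B) : Cod X B := by
  have hle : baire (X.extremePoints ℝ) ≤ codSpace X := by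
    refine MeasurableSpace.generateFrom_le ?_
    rintro _ ⟨g, hg, rfl⟩
    let O : Set (X.extremePoints ℝ) := (g ⁻¹' {0})ᶜ
    have hO : IsOpen O := (isClosed_singleton.preimage hg).isOpen_compl
    have hOl : IsLindelof O := by
      have h1 : O = ⋃ n : ℕ, {t | 1 / ((n:ℝ) + 1) ≤ |g t|} := by
        ext t
        simp only [O, mem_compl_iff, mem_preimage, mem_singleton_iff, mem_iUnion]
        constructor
        · intro h
          obtain ⟨n, hn⟩ := exists_nat_one_div_lt (abs_pos.2 h)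
          exact ⟨n, hn.le⟩
        · rintro ⟨n, hn⟩ h0
          have hn' : 1 / ((n:ℝ) + 1) ≤ |g t| := hn
          rw [h0, abs_zero] at hn'
          have : (0:ℝ) < 1 / ((n:ℝ) + 1) := by positivity
          linarith
      rw [h1]
      refine isLindelof_iUnion fun n => ?_
      exact isLindelof_univ.of_isClosed_subset (isClosed_le continuous_const (by fun_prop))
        (subset_univ _)
    obtain ⟨V, hV, hVO⟩ := isOpen_induced_iff.1 hO
    have hex : ∀ t : X.extremePoints ℝ, t ∈ O → ∃ (φ : E →L[ℝ] ℝ) (c : ℝ),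
        (∀ x ∈ X, 0 ≤ φ x + c) ∧ (∀ x ∈ X, φ x + c < 1 → x ∈ V) ∧ φ t + c < 1 := by
      intro t ht
      have htV : (t : E) ∈ V := by
        rw [← hVO] at ht
        exact ht
      exact exists_affine hXc hX t.2 hV htV one_pos
    choose! φ c _ h1 h2 using hex
    obtain ⟨C, hC, hCO, hC2⟩ := hOl.elim_nhds_subcover
      (fun t => {s | φ t s + c t < 1}) (fun t ht => by
        refine IsOpen.mem_nhds ?_ (h2 t ht)
        exact isOpen_lt (by fun_prop) continuous_const)
    have hOe : O = ⋃ t ∈ C, {s : X.extremePoints ℝ | φ t s + c t < 1} := by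
      refine Subset.antisymm hC2 (iUnion₂_subset fun t ht s hs => ?_)
      rw [← hVO]
      exact h1 t (hCO t ht) s s.2.1 hs
    have hOm : MeasurableSet[codSpace X] O := by
      rw [hOe]
      refine @MeasurableSet.biUnion _ _ (codSpace X) _ _ hC fun t _ => ?_
      refine ⟨fun _ => φ t, {v | v 0 + c t < 1}, ?_, rfl⟩
      exact measurableSet_lt ((measurable_pi_apply 0).add_const _) measurable_const
    have h3 : g ⁻¹' {0} = Oᶜ := (compl_compl _).symm
    rw [h3]
    exact @MeasurableSet.compl _ _ (codSpace X) hOm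
  exact hle _ hB

end Functionals

/-- A non-separable set contains an uncountable uniformly separated set. -/
lemma exists_separated {F : Type*} [PseudoMetricSpace F] {s : Set F}
    (hs : ¬ TopologicalSpace.IsSeparable s) :
    ∃ ε > 0, ∃ D ⊆ s, ¬ D.Countable ∧ D.Pairwise (fun x y => ε ≤ dist x y) := by
  by_contra hcon
  push Not at hcon
  apply hs
  obtain ⟨t, -, ht, hst⟩ := EMetric.subset_countable_closure_of_almost_dense_set s (by
    intro ε hε
    obtain ⟨δ, hδ, hδε⟩ : ∃ δ : ℝ, 0 < δ ∧ ENNReal.ofReal δ ≤ ε := by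
      rcases eq_or_ne ε ∞ with rfl | hε'
      · exact ⟨1, one_pos, le_top⟩
      · exact ⟨ε.toReal, ENNReal.toReal_pos hε.ne' hε', (ENNReal.ofReal_toReal hε').le⟩
    obtain ⟨N, hN⟩ := zorn_subset {N : Set F | N ⊆ s ∧ N.Pairwise (fun x y => δ ≤ dist x y)} (by
      intro c hc hch
      refine ⟨⋃₀ c, ⟨sUnion_subset fun a ha => (hc ha).1, ?_⟩, fun a ha => subset_sUnion_of_mem ha⟩
      exact (pairwise_sUnion hch.directedOn).2 fun a ha => (hc ha).2)
    refine ⟨N, ?_, ?_⟩
    · by_contra hNc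
      exact hcon δ hδ N hN.1.1 hNc hN.1.2
    · intro x hx
      by_contra hxN
      have hxN' : ∀ y ∈ N, δ ≤ dist x y := by
        intro y hy
        by_contra hlt
        push Not at hlt
        apply hxN
        refine mem_iUnion₂.2 ⟨y, hy, ?_⟩
        rw [Metric.mem_closedEBall, edist_dist]
        exact (ENNReal.ofReal_le_ofReal hlt.le).trans hδε
      have h1 : insert x N ∈ {N : Set F | N ⊆ s ∧ N.Pairwise (fun x y => δ ≤ dist x y)} := by
        refine ⟨insert_subset hx hN.1.1, ?_⟩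
        rw [pairwise_insert]
        refine ⟨hN.1.2, fun y hy _ => ⟨hxN' y hy, ?_⟩⟩
        rw [dist_comm]
        exact hxN' y hy
      have h2 : x ∈ N := hN.2 h1 (subset_insert _ _) (mem_insert _ _)
      have h3 := hxN' x h2
      rw [dist_self] at h3
      linarith)
  exact ⟨t, ht, hst⟩

/-- **Main theorem.** -/
theorem separable_range {E : Type*} [AddCommGroup E] [Module ℝ E] [TopologicalSpace E]
    [IsTopologicalAddGroup E] [ContinuousSMul ℝ E] [LocallyConvexSpace ℝ E] [T2Space E]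
    {X : Set E} (hXc : IsCompact X) (hX : Convex ℝ X) (hL : LindelofSpace (X.extremePoints ℝ))
    {F : Type*} [TopologicalSpace F] [TopologicalSpace.PseudoMetrizableSpace F]
    (f : X.extremePoints ℝ → F)
    (hf : ∀ U : Set F, IsOpen U → MeasurableSet[baire (X.extremePoints ℝ)] (f ⁻¹' U)) :
    TopologicalSpace.IsSeparable (range f) := by
  classical
  let _ := TopologicalSpace.pseudoMetrizableSpacePseudoMetric F
  rcases isEmpty_or_nonempty (X.extremePoints ℝ) with hem | hne
  · rw [range_eq_empty]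
    exact (countable_empty).isSeparable
  by_contra hs
  obtain ⟨ε, hε, D, hDs, hDc, hDp⟩ := exists_separated hs
  -- a subset of size `ℵ₁` with an injection into the Cantor space
  obtain ⟨D', hD'D, hD'⟩ : ∃ D' ⊆ D, Cardinal.mk D' = Cardinal.aleph 1 := by
    apply Cardinal.le_mk_iff_exists_subset.1
    rw [← Cardinal.succ_aleph0, Order.succ_le_iff]
    rw [← not_le, Cardinal.le_aleph0_iff_set_countable]
    exact hDc
  have hunc : Uncountable D' := by
    rw [← Cardinal.aleph0_lt_mk_iff, hD']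
    exact Cardinal.aleph0_lt_aleph_one
  obtain ⟨c, hc⟩ : ∃ c : D' → (ℕ → Bool), Injective c := by
    have h1 : Cardinal.lift.{0} (Cardinal.mk D') ≤ Cardinal.lift (Cardinal.mk (ℕ → Bool)) := by
      rw [hD']
      simpa using Cardinal.aleph_one_le_continuum
    obtain ⟨e⟩ := Cardinal.lift_mk_le'.1 h1
    exact ⟨e, e.injective⟩
  have hball : ∀ (d d' : D') (y : F), y ∈ Metric.ball (d : F) (ε / 2) →
      y ∈ Metric.ball (d' : F) (ε / 2) → d = d' := by
    intro d d' y h1 h2
    by_contra hne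
    have h3 := hDp (hD'D d.2) (hD'D d'.2) (fun h => hne (Subtype.ext h))
    have h4 := dist_triangle_left (d : F) (d' : F) y
    rw [Metric.mem_ball] at h1 h2
    have h3' : ε ≤ dist (d : F) (d' : F) := h3
    linarith
  refine no_all_analytic c hc fun J => ?_
  let S : ℕ → Set (X.extremePoints ℝ) := fun n =>
    match n with
    | 0 => f ⁻¹' ⋃ d ∈ J, Metric.ball (d : F) (ε / 2)
    | n + 1 => f ⁻¹' ⋃ d ∈ {d | d ∈ J ∧ c d n = true}, Metric.ball (d : F) (ε / 2)
  have hS : ∀ n, Cod X (S n) := by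
    intro n
    apply cod_of_baire hXc hX
    cases n with
    | zero => exact hf _ (isOpen_biUnion fun d _ => Metric.isOpen_ball)
    | succ n => exact hf _ (isOpen_biUnion fun d _ => Metric.isOpen_ball)
  obtain ⟨l, B, hB, hSB⟩ := Cod.common hS
  let cc : (ℕ → ℝ) → (ℕ → Bool) := fun v n => decide (v ∈ B (n + 1))
  have hcc : Measurable cc := by
    refine measurable_pi_lambda _ fun n => ?_
    refine measurable_to_bool ?_
    have : (fun v : ℕ → ℝ => cc v n) ⁻¹' {true} = B (n + 1) := by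
      ext v
      simp [cc]
    rw [this]
    exact hB _
  have hcode : ∀ (t : X.extremePoints ℝ) (d : D'), d ∈ J → f t ∈ Metric.ball (d : F) (ε / 2) →
      cc (fun n => l n t) = c d := by
    intro t d hd ht
    funext n
    have h1 : ((fun k => l k t) ∈ B (n + 1)) ↔ c d n = true := by
      have h2 : t ∈ S (n + 1) ↔ (fun k => l k t) ∈ B (n + 1) := by
        rw [hSB (n + 1)]
        rfl
      rw [← h2]
      constructor
      · intro h
        obtain ⟨d', ⟨hd', hd'n⟩, hmem⟩ := mem_iUnion₂.1 h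
        rw [hball d d' _ ht hmem]
        exact hd'n
      · intro h
        exact mem_iUnion₂.2 ⟨d, ⟨hd, h⟩, ht⟩
    simp only [cc]
    rw [Bool.eq_iff_iff]
    simpa using h1
  have himg : c '' J = cc '' {v | v ∈ B 0 ∧ ∃ t : X.extremePoints ℝ, v = fun n => l n t} := by
    have h0 : ∀ t : X.extremePoints ℝ, (fun k => l k t) ∈ B 0 ↔ t ∈ S 0 := by
      intro t
      rw [hSB 0]
      rfl
    ext z
    constructor
    · rintro ⟨d, hd, rfl⟩
      obtain ⟨t, ht⟩ := hDs (hD'D d.2)
      have htb : f t ∈ Metric.ball (d : F) (ε / 2) := by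
        rw [ht]
        exact Metric.mem_ball_self (half_pos hε)
      refine ⟨fun n => l n t, ⟨?_, t, rfl⟩, hcode t d hd htb⟩
      rw [h0]
      exact mem_iUnion₂.2 ⟨d, hd, htb⟩
    · rintro ⟨_, ⟨hv, t, rfl⟩, rfl⟩
      rw [h0] at hv
      obtain ⟨d, hd, htb⟩ := mem_iUnion₂.1 hv
      exact ⟨d, hd, (hcode t d hd htb).symm⟩
  rw [himg]
  exact key hXc hX l (hB 0) hcc

end

end Pool.Agent.H87.EX
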