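import Mathlib

/-!
# Descriptive set theory preliminaries

The perfect set theorem for analytic subsets of the Cantor space and the existence of a
non-analytic subset of it (both proofs are taken from earlier library modules).
-/

set_option autoImplicit false

namespace Pool.Agent.H87.EX

open Set Filter Metric Function CantorScheme PiNat Topology MeasureTheory
open scoped ENNReal

noncomputable section

section
variable {α β : Type*} [MetricSpace α] [SecondCountableTopology α] [TopologicalSpace β] [T2Space β]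
  {f : α → β}

lemma split (hf : Continuous f) {E : Set α} (hE : IsClosed E) (hEc : ¬ (f '' E).Countable)
    {ε : ℝ≥0∞} (hε : 0 < ε) :
    ∃ E₀ E₁ : Set α, (IsClosed E₀ ∧ ¬ (f '' E₀).Countable ∧ E₀ ⊆ E ∧ ediam E₀ ≤ ε) ∧
      (IsClosed E₁ ∧ ¬ (f '' E₁).Countable ∧ E₁ ⊆ E ∧ ediam E₁ ≤ ε) ∧
      Disjoint (f '' E₀) (f '' E₁) := by
  let bs := TopologicalSpace.countableBasis α
  let N : Set α := ⋃ V ∈ {V ∈ bs | (f '' (V ∩ E)).Countable}, V ∩ E
  have hN : (f '' N).Countable := by
    simp only [N, image_iUnion₂]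
    refine Countable.biUnion ((TopologicalSpace.countable_countableBasis α).mono
      fun V hV => hV.1) fun V hV => hV.2
  have hR : ¬ (f '' (E \ N)).Countable := by
    intro h
    apply hEc
    refine (h.union hN).mono ?_
    rw [← image_union]
    refine image_mono fun x hx => ?_
    by_cases hxN : x ∈ N
    · exact Or.inr hxN
    · exact Or.inl ⟨hx, hxN⟩
  have hnt : (f '' (E \ N)).Nontrivial := by
    by_contra h
    rw [not_nontrivial_iff] at h
    exact hR h.countable
  obtain ⟨_, ⟨x, hx, rfl⟩, _, ⟨y, hy, rfl⟩, hxy⟩ := hnt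
  obtain ⟨U, V, hU, hV, hxU, hyV, hUV⟩ := t2_separation hxy
  have key : ∀ z ∈ E \ N, ∀ O : Set β, IsOpen O → f z ∈ O →
      ∃ E₀ : Set α, (IsClosed E₀ ∧ ¬ (f '' E₀).Countable ∧ E₀ ⊆ E ∧ ediam E₀ ≤ ε) ∧ f '' E₀ ⊆ O := by
    intro z hz O hO hzO
    have h1 : f ⁻¹' O ∈ 𝓝 z := (hO.preimage hf).mem_nhds hzO
    obtain ⟨r, hr, hrs⟩ := Metric.nhds_basis_closedEBall.mem_iff.1 h1
    let r' := min r (ε / 2)
    have hr' : 0 < r' := lt_min hr (ENNReal.half_pos hε.ne')
    refine ⟨closedEBall z r' ∩ E, ⟨isClosed_closedEBall.inter hE, ?_, inter_subset_right, ?_⟩, ?_⟩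
    · intro hc
      have h2 : closedEBall z r' ∈ 𝓝 z := closedEBall_mem_nhds z hr'
      obtain ⟨W, hW, hzW, hWs⟩ := (TopologicalSpace.isBasis_countableBasis α).mem_nhds_iff.1 h2
      apply hz.2
      refine mem_iUnion₂.2 ⟨W, ⟨hW, ?_⟩, hzW, hz.1⟩
      exact hc.mono (image_mono (inter_subset_inter_left _ hWs))
    · refine (ediam_mono inter_subset_left).trans ?_
      refine ediam_closedEBall_le.trans ?_
      calc 2 * r' ≤ 2 * (ε / 2) := by gcongr; exact min_le_right _ _
        _ = ε := ENNReal.mul_div_cancel (by norm_num) (by norm_num)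
    · rintro _ ⟨w, hw, rfl⟩
      exact hrs (closedEBall_subset_closedEBall (min_le_left _ _) hw.1)
  obtain ⟨E₀, h0, h0'⟩ := key x hx U hU hxU
  obtain ⟨E₁, h1, h1'⟩ := key y hy V hV hyV
  exact ⟨E₀, E₁, h0, h1, hUV.mono h0' h1'⟩

/-- The perfect set theorem, with a continuous injection. (Proof taken from earlier library modules.) -/
theorem exists_cont_injection (hf : Continuous f) [CompleteSpace α] (hc : ¬ (range f).Countable) :
    ∃ g : (ℕ → Bool) → α, Continuous g ∧ Injective (f ∘ g) := by
  obtain ⟨u, -, upos', hu⟩ := exists_seq_strictAnti_tendsto' (zero_lt_one' ℝ≥0∞)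
  have upos := fun n => (upos' n).1
  let P := Subtype fun E : Set α => IsClosed E ∧ ¬ (f '' E).Countable
  choose C0 C1 h0 h1 hdisj using
    fun {E : Set α} (hE : IsClosed E) (hEc : ¬ (f '' E).Countable) {ε : ℝ≥0∞} (hε : 0 < ε) =>
    split hf hE hEc hε
  let DP : List Bool → P := fun l => by
    induction l with
    | nil => exact ⟨univ, ⟨isClosed_univ, by rwa [image_univ]⟩⟩
    | cons a l ih =>
      cases a
      · use C0 ih.property.1 ih.property.2 (upos (l.length + 1))
        exact ⟨(h0 _ _ _).1, (h0 _ _ _).2.1⟩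
      use C1 ih.property.1 ih.property.2 (upos (l.length + 1))
      exact ⟨(h1 _ _ _).1, (h1 _ _ _).2.1⟩
  let D : List Bool → Set α := fun l => (DP l).val
  have hanti : ClosureAntitone D := by
    refine Antitone.closureAntitone ?_ fun l => (DP l).property.1
    intro l a
    cases a
    · exact (h0 _ _ _).2.2.1
    exact (h1 _ _ _).2.2.1
  have hdiam : VanishingDiam D := by
    intro x
    apply tendsto_of_tendsto_of_tendsto_of_le_of_le' tendsto_const_nhds hu
    · simp
    rw [eventually_atTop]
    refine ⟨1, fun m (hm : 1 ≤ m) => ?_⟩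
    rw [Nat.one_le_iff_ne_zero] at hm
    rcases Nat.exists_eq_succ_of_ne_zero hm with ⟨n, rfl⟩
    dsimp
    cases x n
    · convert! (h0 _ _ _).2.2.2
      rw [PiNat.res_length]
    convert! (h1 _ _ _).2.2.2
    rw [PiNat.res_length]
  have hdisj' : ∀ (l : List Bool) (a b : Bool), a ≠ b →
      Disjoint (f '' D (a :: l)) (f '' D (b :: l)) := by
    rintro l (a | a) (b | b) hab <;> try contradiction
    · exact hdisj _ _ _
    exact (hdisj _ _ _).symm
  have hnon : ∀ l, (D l).Nonempty := by
    intro l
    by_contra h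
    rw [not_nonempty_iff_eq_empty] at h
    apply (DP l).property.2
    have : (DP l).val = ∅ := h
    rw [this, image_empty]
    exact countable_empty
  have hdom : ∀ {x : ℕ → Bool}, x ∈ (inducedMap D).1 := fun {x} => by
    rw [hanti.map_of_vanishingDiam hdiam hnon]
    apply mem_univ
  refine ⟨fun x => (inducedMap D).2 ⟨x, hdom⟩, hdiam.map_continuous.comp
    (continuous_id.subtype_mk _), ?_⟩
  intro x y hxy
  refine res_injective ?_
  ext n : 1
  induction n with
  | zero => simp
  | succ n ih =>
    simp only [res_succ, List.cons.injEq]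
    refine ⟨?_, ih⟩
    by_contra hne
    have h2 := hdisj' (res x n) (x n) (y n) hne
    rw [Set.disjoint_left] at h2
    refine h2 (a := f ((inducedMap D).2 ⟨x, hdom⟩)) ?_ ?_
    · rw [← res_succ]
      exact mem_image_of_mem f (map_mem (A := D) ⟨x, hdom⟩ (n + 1))
    · have h3 : f ((inducedMap D).2 ⟨x, hdom⟩) = f ((inducedMap D).2 ⟨y, hdom⟩) := hxy
      rw [h3, ih, ← res_succ]
      exact mem_image_of_mem f (map_mem (A := D) ⟨y, hdom⟩ (n + 1))

end

lemma perf {A : Set (ℕ → Bool)} (hA : AnalyticSet A) (hc : ¬ A.Countable) :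
    ∃ k : (ℕ → Bool) → (ℕ → Bool), Continuous k ∧ Injective k ∧ ∀ a, k a ∈ A := by
  rw [analyticSet_iff_exists_polishSpace_range] at hA
  obtain ⟨γ, t, hp, f, hf, rfl⟩ := hA
  let _ := TopologicalSpace.upgradeIsCompletelyMetrizable γ
  obtain ⟨g, hgc, hg⟩ := exists_cont_injection hf hc
  exact ⟨f ∘ g, hf.comp hgc, hg, fun a => mem_range_self _⟩

/-- An injection of a set of size at most continuum into the Cantor set. -/
def codeOpt : Option (ℕ → ℕ → Bool) → (ℕ → Bool)
  | none => fun _ => false
  | some x => fun n => match n with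
    | 0 => true
    | m + 1 => x (Nat.unpair m).1 (Nat.unpair m).2

lemma codeOpt_injective : Function.Injective codeOpt := by
  intro a b h
  cases a with
  | none =>
    cases b with
    | none => rfl
    | some y =>
      have := congrFun h 0
      simp [codeOpt] at this
  | some x =>
    cases b with
    | none =>
      have := congrFun h 0
      simp [codeOpt] at this
    | some y =>
      congr 1
      funext i j
      have := congrFun h (Nat.pair i j + 1)
      simpa [codeOpt] using this

theorem exists_not_analyticSet : ∃ Y : Set (ℕ → Bool), ¬ MeasureTheory.AnalyticSet Y := by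
  classical
  by_contra hcon
  push Not at hcon
  have h1 : ∀ Y : Set (ℕ → Bool), Y = ∅ ∨
      ∃ f : (ℕ → ℕ) → (ℕ → Bool), Continuous f ∧ range f = Y := by
    intro Y
    have := hcon Y
    rwa [MeasureTheory.AnalyticSet] at this
  choose! F hF using fun (Y : Set (ℕ → Bool)) (hY : Y ≠ ∅) => (h1 Y).resolve_left hY
  let G : Set (ℕ → Bool) → Option (ℕ → ℕ → Bool) := fun Y =>
    if Y = ∅ then none else some fun n => F Y (TopologicalSpace.denseSeq (ℕ → ℕ) n)
  have hG : Function.Injective G := by
    intro A B hAB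
    by_cases hA : A = ∅
    · by_cases hB : B = ∅
      · rw [hA, hB]
      · simp [G, hA, hB] at hAB
    · by_cases hB : B = ∅
      · simp [G, hA, hB] at hAB
      · simp only [G, hA, hB, if_false, Option.some.injEq] at hAB
        have h2 : F A = F B := by
          refine Continuous.ext_on (TopologicalSpace.denseRange_denseSeq (ℕ → ℕ))
            (hF A hA).1 (hF B hB).1 ?_
          rintro _ ⟨n, rfl⟩
          exact congrFun hAB n
        rw [← (hF A hA).2, ← (hF B hB).2, h2]
  exact Function.cantor_injective _ (codeOpt_injective.comp hG)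


/-- There is no injection of an uncountable set into the Cantor space all of whose images of
subsets are analytic. -/
theorem no_all_analytic {D : Type*} [Uncountable D] (c : D → (ℕ → Bool)) (hc : Injective c)
    (h : ∀ J : Set D, AnalyticSet (c '' J)) : False := by
  have h1 : ¬ (c '' univ).Countable := by
    intro hcount
    have h2 : (univ : Set D).Countable := by
      have := hcount.preimage_of_injOn (hc.injOn (s := c ⁻¹' (c '' univ)))
      rwa [preimage_image_eq _ hc] at this
    exact Set.not_countable_univ h2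
  obtain ⟨k, hk1, hk2, hk3⟩ := perf (h univ) h1
  obtain ⟨Y, hY⟩ := exists_not_analyticSet
  have h3 : c '' (c ⁻¹' (k '' Y)) = k '' Y := by
    rw [image_preimage_eq_iff]
    rintro _ ⟨y, -, rfl⟩
    obtain ⟨d, -, hd⟩ := hk3 y
    exact ⟨d, hd⟩
  have h4 : AnalyticSet (k '' Y) := h3 ▸ h (c ⁻¹' (k '' Y))
  apply hY
  have h5 : k ⁻¹' (k '' Y) = Y := preimage_image_eq _ hk2
  rw [← h5]
  have : PolishSpace (ℕ → Bool) := ⟨⟩
  exact h4.preimage hk1

end

end Pool.Agent.H87.EX
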